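import Pool.Agent.helper24.OT.Final
import Pool.Agent.helper20.OT.ModD

/-!
# Strictness of the bounded-nondeterminism hierarchy for one-tape machines of subquadratic time
-/

namespace Pool.Agent.Results.MP_cd574d_lc.OneTapeGuessHierarchy

open Pool.Agent.helper24.OT

/-- **Guesses cannot be traded for time and memory on one-tape machines.**  For all `σ > 1`,
`τ ≥ 1`, `μ ≥ 0`, `0 ≤ a < 1` and `b > a` with `τ + μ < 2` and `τ + μ < σ + 1 - a` some language is
accepted by a one-tape nondeterministic machine in time `O(n^σ)` with `O(n^b)` nondeterministic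
steps, but not in time `O(n^τ)` with `O(n^a)` nondeterministic steps, even if the machine is given
`O(n^μ)` bits of additional memory and may depend on the input length. -/
theorem result {σ τ μ a b : ℝ} (hσ : 1 < σ) (hτ : 1 ≤ τ) (hμ : 0 ≤ μ) (hτμ : τ + μ < 2)
    (ha : 0 ≤ a) (ha1 : a < 1) (hab : a < b) (h : τ + μ < σ + 1 - a) :
    ∃ L : Set (List (Fin 5)), L ∈ ND (Fin 5) σ b ∧ L ∉ ND (Fin 5) τ a ∧
      L ∉ NDM (Fin 5) τ a μ := by
  obtain ⟨L, h1, h2⟩ := tradeoff Pool.Agent.helper20.OT.moduleD hσ hτ hμ hτμ ha ha1 hab h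
  exact ⟨L, h1, fun h3 => h2 (ND_subset_NDM hμ h3), h2⟩

end Pool.Agent.Results.MP_cd574d_lc.OneTapeGuessHierarchy
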